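import Pool.Agent.L7h81.TW.Stm

set_option autoImplicit false

/-!
# Project TW, parts OMT and OMX: periods of the quadratic twists
-/

namespace Pool.Agent.L7h65.TW

open NumberField NumberField.InfinitePlace
open Pool.Agent.K4H55.BI (IQ)
open Pool.Agent.L7h82.RL (IsOm emb_two no_real card_places)
open Pool.Agent.L7h65.RL2 (cj cj_G per)
open PeriodPair (mem_lattice)
open scoped ComplexConjugate

/-- the pair multiplied by `μ` -/
noncomputable def sc (μ : ℂ) (hμ : μ ≠ 0) (L : PeriodPair) : PeriodPair where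
  ω₁ := μ * L.ω₁
  ω₂ := μ * L.ω₂
  indep := by
    refine LinearIndependent.pair_iff.2 fun s t h => LinearIndependent.pair_iff.1 L.indep s t ?_
    have h1 : μ * (s • L.ω₁ + t • L.ω₂) = 0 := by
      rw [← h, mul_add, mul_smul_comm, mul_smul_comm]
    exact (mul_eq_zero.1 h1).resolve_left hμ

variable {μ : ℂ} (hμ : μ ≠ 0) (L : PeriodPair)

theorem sc_mem (x : ℂ) (hx : x ∈ L.lattice) : μ * x ∈ (sc μ hμ L).lattice := by
  obtain ⟨m, n, e⟩ := mem_lattice.1 hx
  refine mem_lattice.2 ⟨m, n, ?_⟩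
  rw [← e]
  simp only [sc]
  ring

theorem sc_mem' (x : ℂ) (hx : x ∈ (sc μ hμ L).lattice) : μ⁻¹ * x ∈ L.lattice := by
  obtain ⟨m, n, e⟩ := mem_lattice.1 hx
  refine mem_lattice.2 ⟨m, n, ?_⟩
  rw [← e]
  simp only [sc]
  field_simp

theorem sc_G (n : ℕ) : (sc μ hμ L).G n = (μ ^ n)⁻¹ * L.G n := by
  let e : L.lattice ≃ (sc μ hμ L).lattice :=
    { toFun := fun x => ⟨μ * x.1, sc_mem hμ L x.1 x.2⟩
      invFun := fun x => ⟨μ⁻¹ * x.1, sc_mem' hμ L x.1 x.2⟩
      left_inv := fun x => by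
        apply Subtype.ext
        simp only
        rw [← mul_assoc, inv_mul_cancel₀ hμ, one_mul]
      right_inv := fun x => by
        apply Subtype.ext
        simp only
        rw [← mul_assoc, mul_inv_cancel₀ hμ, one_mul] }
  unfold PeriodPair.G
  rw [← e.tsum_eq, ← tsum_mul_left]
  apply tsum_congr
  intro x
  change ((μ * x.1) ^ n)⁻¹ = _
  rw [mul_pow, mul_inv]

theorem sc_g₂ : (sc μ hμ L).g₂ = (μ ^ 4)⁻¹ * L.g₂ := by
  unfold PeriodPair.g₂
  rw [sc_G]
  ring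

theorem sc_g₃ : (sc μ hμ L).g₃ = (μ ^ 6)⁻¹ * L.g₃ := by
  unfold PeriodPair.g₃
  rw [sc_G]
  ring

theorem sc_im : |((sc μ hμ L).ω₁ * conj (sc μ hμ L).ω₂).im| =
    ‖μ‖ ^ 2 * |(L.ω₁ * conj L.ω₂).im| := by
  have h1 : (sc μ hμ L).ω₁ * conj (sc μ hμ L).ω₂ =
      ((‖μ‖ ^ 2 : ℝ) : ℂ) * (L.ω₁ * conj L.ω₂) := by
    have h2 : ((‖μ‖ ^ 2 : ℝ) : ℂ) = μ * conj μ := by
      rw [Complex.mul_conj, Complex.normSq_eq_norm_sq]
    rw [h2]
    simp only [sc, map_mul]
    ring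
  rw [h1, Complex.im_ofReal_mul, abs_mul, abs_of_nonneg (by positivity)]

/-- the scaled pairs for a twist -/
theorem tw_pair {z : ℂ} (hz : z ≠ 0) {A B : ℂ} {L : PeriodPair} (h2 : L.g₂ = -4 * (A * z ^ 2))
    (h3 : L.g₃ = -4 * (B * z ^ 3)) : ∃ M : PeriodPair, M.g₂ = -4 * A ∧ M.g₃ = -4 * B ∧
      |(M.ω₁ * conj M.ω₂).im| = ‖z‖ * |(L.ω₁ * conj L.ω₂).im| := by
  obtain ⟨μ, hμ⟩ := IsAlgClosed.exists_pow_nat_eq z (n := 2) (by norm_num)
  have hμ0 : μ ≠ 0 := by
    rintro rfl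
    apply hz
    rw [← hμ]
    norm_num
  refine ⟨sc μ hμ0 L, ?_, ?_, ?_⟩
  · rw [sc_g₂, h2, ← hμ]
    field_simp
  · rw [sc_g₃, h3, ← hμ]
    field_simp
  · rw [sc_im, ← norm_pow, hμ]

/-- the scaled pairs for a twist, converse -/
theorem tw_pair' {z : ℂ} (hz : z ≠ 0) {A B : ℂ} {L : PeriodPair} (h2 : L.g₂ = -4 * A)
    (h3 : L.g₃ = -4 * B) : ∃ M : PeriodPair, M.g₂ = -4 * (A * z ^ 2) ∧ M.g₃ = -4 * (B * z ^ 3) := by
  obtain ⟨M, k2, k3, -⟩ := tw_pair (z := z⁻¹) (inv_ne_zero hz) (A := A * z ^ 2) (B := B * z ^ 3)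
    (L := L) (by rw [h2]; field_simp) (by rw [h3]; field_simp)
  exact ⟨M, k2, k3⟩

section

variable {K : Type} [Field K] [NumberField K] {σ : K →+* ℂ} {δ : K}

theorem cj_g₂ (L : PeriodPair) : (cj L).g₂ = conj L.g₂ := by
  unfold PeriodPair.g₂
  rw [cj_G, map_mul, map_ofNat]

theorem cj_g₃ (L : PeriodPair) : (cj L).g₃ = conj L.g₃ := by
  unfold PeriodPair.g₃
  rw [cj_G, map_mul, map_ofNat]

theorem prod_norm (_h : IQ K σ δ) (F : Type) [Field F] [NumberField F] [Algebra K F] (d : F)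
    (e : InfinitePlace F → (F →+* ℂ)) (he : ∀ w, InfinitePlace.mk (e w) = w ∧ w.IsComplex) :
    ∏ w, ‖e w d‖ = √|((Algebra.norm ℚ d : ℚ) : ℝ)| := by
  have h1 : ∀ w, ‖e w d‖ = w d := by
    intro w
    conv_rhs => rw [← (he w).1]
    exact (InfinitePlace.apply (e w) d).symm
  have h2 : (∏ w, ‖e w d‖) ^ 2 = |((Algebra.norm ℚ d : ℚ) : ℝ)| := by
    have h3 := InfinitePlace.prod_eq_abs_norm d
    rw [← Finset.prod_pow]
    have h4 : ((|Algebra.norm ℚ d| : ℚ) : ℝ) = |((Algebra.norm ℚ d : ℚ) : ℝ)| := by push_cast; rfl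
    rw [← h4, ← h3]
    refine Finset.prod_congr rfl fun w _ => ?_
    rw [h1, InfinitePlace.mult, if_neg (not_isReal_iff_isComplex.2 (he w).2)]
  rw [← h2, Real.sqrt_sq (Finset.prod_nonneg fun _ _ => norm_nonneg _)]

theorem s_OMT : Pool.Agent.L7h81.TW.S_OMT := by
  intro K _ _ σ δ h a b L0 h2 h3 F _ _ _ d hd Ω hO
  obtain ⟨e, L, hL, rfl⟩ := hO
  have hz : ∀ w, e w d ≠ 0 := fun w => (map_ne_zero (e w)).2 hd
  have hw : ∀ w, |((L w).ω₁ * conj (L w).ω₂).im| * ‖e w d‖ = |(L0.ω₁ * conj L0.ω₂).im| := by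
    intro w
    obtain ⟨-, -, k2, k3⟩ := hL w
    rw [map_mul, map_pow] at k2 k3
    obtain ⟨M, m2, m3, m4⟩ := tw_pair (hz w) k2 k3
    rw [mul_comm, ← m4]
    apply per
    rcases emb_two h ((e w).comp (algebraMap K F)) with h1 | h1
    · left
      have e1 : e w (algebraMap K F a) = σ a := congrArg (fun t : K →+* ℂ => t a) h1
      have e2 : e w (algebraMap K F b) = σ b := congrArg (fun t : K →+* ℂ => t b) h1
      rw [m2, m3, h2, h3, e1, e2]
      exact ⟨rfl, rfl⟩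
    · right
      have e1 : e w (algebraMap K F a) = conj (σ a) := congrArg (fun t : K →+* ℂ => t a) h1
      have e2 : e w (algebraMap K F b) = conj (σ b) := congrArg (fun t : K →+* ℂ => t b) h1
      rw [m2, m3, h2, h3, e1, e2, map_mul, map_mul, map_neg, map_ofNat]
      exact ⟨rfl, rfl⟩
  have hN : (0:ℝ) < √|((Algebra.norm ℚ d : ℚ) : ℝ)| := by
    have h5 : (Algebra.norm ℚ d : ℚ) ≠ 0 := Algebra.norm_ne_zero_iff.2 hd
    have h6 : ((Algebra.norm ℚ d : ℚ) : ℝ) ≠ 0 := by exact_mod_cast h5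
    positivity
  have hprod : |∏ w, ((L w).ω₁ * conj (L w).ω₂).im| =
      |(L0.ω₁ * conj L0.ω₂).im| ^ Module.finrank K F / √|((Algebra.norm ℚ d : ℚ) : ℝ)| := by
    rw [eq_div_iff hN.ne', ← prod_norm h F d e fun w => ⟨(hL w).1, (hL w).2.1⟩, Finset.abs_prod,
      ← Finset.prod_mul_distrib, Finset.prod_congr rfl fun w _ => hw w, Finset.prod_const,
      Finset.card_univ, card_places h F]
  rcases abs_choice (∏ w, ((L w).ω₁ * conj (L w).ω₂).im) with h1 | h1
  · refine ⟨1, Or.inl rfl, ?_⟩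
    rw [mul_div_assoc, ← hprod, h1]
    ring
  · refine ⟨-1, Or.inr rfl, ?_⟩
    rw [mul_div_assoc, ← hprod, h1]
    ring

theorem s_OMX : Pool.Agent.L7h81.TW.S_OMX := by
  classical
  intro K _ _ σ δ h a b F _ _ _ d hd
  constructor
  · rintro ⟨Ω, e, L, hL, -⟩
    obtain ⟨w⟩ : Nonempty (InfinitePlace F) := inferInstance
    obtain ⟨-, -, k2, k3⟩ := hL w
    rw [map_mul, map_pow] at k2 k3
    obtain ⟨M, m2, m3, -⟩ := tw_pair ((map_ne_zero (e w)).2 hd) k2 k3
    rcases emb_two h ((e w).comp (algebraMap K F)) with h1 | h1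
    · refine ⟨M, ?_, ?_⟩
      · rw [m2]
        exact congrArg (fun t : K →+* ℂ => -4 * t a) h1
      · rw [m3]
        exact congrArg (fun t : K →+* ℂ => -4 * t b) h1
    · refine ⟨cj M, ?_, ?_⟩
      · have e1 : e w (algebraMap K F a) = conj (σ a) := congrArg (fun t : K →+* ℂ => t a) h1
        rw [cj_g₂, m2, e1, map_mul, Complex.conj_conj, map_neg, map_ofNat]
      · have e1 : e w (algebraMap K F b) = conj (σ b) := congrArg (fun t : K →+* ℂ => t b) h1
        rw [cj_g₃, m3, e1, map_mul, Complex.conj_conj, map_neg, map_ofNat]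
  · rintro ⟨L0, h2, h3⟩
    have h1 : ∀ g : F →+* ℂ, ∃ P : PeriodPair, P.g₂ = -4 * g (algebraMap K F a * d ^ 2) ∧
        P.g₃ = -4 * g (algebraMap K F b * d ^ 3) := by
      intro g
      have hz : g d ≠ 0 := (map_ne_zero g).2 hd
      rcases emb_two h (g.comp (algebraMap K F)) with h4 | h4
      · have e1 : g (algebraMap K F a) = σ a := congrArg (fun t : K →+* ℂ => t a) h4
        have e2 : g (algebraMap K F b) = σ b := congrArg (fun t : K →+* ℂ => t b) h4
        obtain ⟨M, m2, m3⟩ := tw_pair' hz (L := L0) (A := g (algebraMap K F a))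
          (B := g (algebraMap K F b)) (by rw [h2, e1]) (by rw [h3, e2])
        exact ⟨M, by rw [m2, map_mul, map_pow], by rw [m3, map_mul, map_pow]⟩
      · have e1 : g (algebraMap K F a) = conj (σ a) := congrArg (fun t : K →+* ℂ => t a) h4
        have e2 : g (algebraMap K F b) = conj (σ b) := congrArg (fun t : K →+* ℂ => t b) h4
        obtain ⟨M, m2, m3⟩ := tw_pair' hz (L := cj L0) (A := g (algebraMap K F a))
          (B := g (algebraMap K F b))
          (by rw [cj_g₂, h2, e1, map_mul, map_neg, map_ofNat])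
          (by rw [cj_g₃, h3, e2, map_mul, map_neg, map_ofNat])
        exact ⟨M, by rw [m2, map_mul, map_pow], by rw [m3, map_mul, map_pow]⟩
    choose P hP2 hP3 using h1
    refine ⟨_, fun w => w.embedding, fun w => P w.embedding, fun w =>
      ⟨mk_embedding w, ?_, hP2 _, hP3 _⟩, rfl⟩
    rcases w.isReal_or_isComplex with h2 | h2
    · exfalso
      have h3 := no_real h F
      unfold nrRealPlaces at h3
      exact (@Fintype.card_eq_zero_iff _ _).1 h3 |>.false ⟨w, h2⟩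
    · exact h2

end

end Pool.Agent.L7h65.TW
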